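import Mathlib

set_option autoImplicit false

/-!
# Two-queue graphs: order contractions
-/

namespace Pool.Agent.helper78.TQ6

/-- `q` is a two-queue layout of `G` in the order of `Fin n` -/
def Lay {n : ℕ} (G : SimpleGraph (Fin n)) (q : Fin n → Fin n → Fin 2) : Prop :=
  ∀ a b c d : Fin n, a < b → b < c → c < d → G.Adj a d → G.Adj b c → q a d ≠ q b c

/-- `G` has a two-queue layout in the order of `Fin n` -/
def TwoQ {n : ℕ} (G : SimpleGraph (Fin n)) : Prop := ∃ q, Lay G q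

theorem TwoQ.mono {n : ℕ} {G H : SimpleGraph (Fin n)} (h : H ≤ G) (hG : TwoQ G) : TwoQ H := by
  obtain ⟨q, hq⟩ := hG
  exact ⟨q, fun a b c d h1 h2 h3 h4 h5 => hq a b c d h1 h2 h3 (h h4) (h h5)⟩

/-- the image of a graph under a map of the vertices -/
def img {n m : ℕ} (f : Fin n → Fin m) (H : SimpleGraph (Fin n)) : SimpleGraph (Fin m) where
  Adj x y := x ≠ y ∧ ∃ a b, f a = x ∧ f b = y ∧ H.Adj a b
  symm := ⟨fun x y ⟨h, a, b, h1, h2, h3⟩ => ⟨h.symm, b, a, h2, h1, h3.symm⟩⟩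
  loopless := ⟨fun x h => h.1 rfl⟩

theorem TwoQ.img {n m : ℕ} {f : Fin n → Fin m} (hf : Monotone f) {H : SimpleGraph (Fin n)}
    (hH : TwoQ H) : TwoQ (img f H) := by
  classical
  obtain ⟨q, hq⟩ := hH
  refine ⟨fun x y => if h : ∃ a b, f a = x ∧ f b = y ∧ H.Adj a b then
    q h.choose h.choose_spec.choose else 0, ?_⟩
  intro a b c d hab hbc hcd had hbc'
  have h1 : ∃ x y, f x = a ∧ f y = d ∧ H.Adj x y := had.2
  have h2 : ∃ x y, f x = b ∧ f y = c ∧ H.Adj x y := hbc'.2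
  simp only [dif_pos h1, dif_pos h2]
  obtain ⟨h3, h4, h5⟩ := h1.choose_spec.choose_spec
  obtain ⟨h6, h7, h8⟩ := h2.choose_spec.choose_spec
  exact hq _ _ _ _ (hf.reflect_lt ((h3.le.trans_lt hab).trans_le h6.ge))
    (hf.reflect_lt ((h6.le.trans_lt hbc).trans_le h7.ge))
    (hf.reflect_lt ((h7.le.trans_lt hcd).trans_le h4.ge)) h5 h8

/-- a colouring of the image is a colouring of the graph -/
theorem exists_col {n m k : ℕ} {f : Fin n → Fin m} {H : SimpleGraph (Fin n)}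
    (hc : (img f H).Colorable k) (hne : ∀ a b, H.Adj a b → f a ≠ f b) :
    ∃ c : Fin m → Fin k, ∀ a b, H.Adj a b → c (f a) ≠ c (f b) := by
  obtain ⟨C⟩ := hc
  exact ⟨C, fun a b h => C.valid ⟨hne a b h, a, b, rfl, rfl, h⟩⟩

theorem Colorable.of_fun {n k : ℕ} {G : SimpleGraph (Fin n)} (c : Fin n → Fin k)
    (h : ∀ a b, a < b → G.Adj a b → c a ≠ c b) : G.Colorable k :=
  ⟨SimpleGraph.Coloring.mk c (fun {x y} hxy => by
    rcases lt_trichotomy x y with h1 | h1 | h1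
    · exact h x y h1 hxy
    · exact absurd (h1 ▸ hxy) (G.irrefl)
    · exact (h y x h1 hxy.symm).symm)⟩

end Pool.Agent.helper78.TQ6
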