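import Pool.Agent.helper78.TQ6.Red

set_option autoImplicit false

/-!
# Two-queue graphs: degrees, pairs and clique separators in a minimal counterexample
-/

namespace Pool.Agent.helper78.TQ6

theorem colorable_small {n : ℕ} (hn : n ≤ 6) (G : SimpleGraph (Fin n)) : G.Colorable 6 :=
  ⟨SimpleGraph.Coloring.mk (fun x => Fin.castLE hn x) (fun {x y} h he =>
    G.ne_of_adj h (Fin.castLE_injective hn he))⟩

/-- the free colours: at least `6 - k` if the coloured neighbours lie in a set of `k` colours -/
theorem free {n : ℕ} (c : Fin n → Fin 6) (N : Finset (Fin n)) :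
    6 ≤ (Finset.univ \ N.image c).card + (N.image c).card := by
  classical
  have := Finset.card_sdiff_add_card_eq_card (Finset.subset_univ (N.image c))
  rw [Finset.card_univ, Fintype.card_fin] at this
  omega

theorem deg_ge {n : ℕ} (hmin : Min n) {G : SimpleGraph (Fin n)} (hG : TwoQ G)
    (hG6 : ¬ G.Colorable 6) (v : Fin n) (N : Finset (Fin n)) (hN : ∀ w, G.Adj v w → w ∈ N) :
    6 ≤ N.card := by
  classical
  by_contra hlt
  have hn : 6 < n := by
    by_contra h
    exact hG6 (colorable_small (by omega) G)
  have hv := v.isLt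
  obtain ⟨c, hc, -⟩ := red hmin hG (fun x => x = v) {min v.val (n - 2)}
    (Finset.singleton_nonempty _) (by
      intro t ht
      rw [Finset.mem_singleton] at ht
      omega) (by
      intro a b hab _ ha hb hall
      have h1 := hall a.val le_rfl hab
      have hb' := b.isLt
      rw [Finset.mem_singleton] at h1
      rw [Fin.lt_def] at hab
      have h2 : b.val = a.val + 1 := by
        by_contra h3
        have := hall (a.val + 1) (by omega) (by omega)
        rw [Finset.mem_singleton] at this
        omega
      have ha' : a.val ≠ v.val := fun h => ha (Fin.ext h)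
      have hb'' : b.val ≠ v.val := fun h => hb (Fin.ext h)
      omega)
  have h1 := free c N
  have h2 : (N.image c).card ≤ N.card := Finset.card_image_le
  have h3 : 0 < (Finset.univ \ N.image c).card := by omega
  obtain ⟨k, hk⟩ := Finset.card_pos.1 h3
  have hk' : ∀ w, G.Adj v w → c w ≠ k := by
    intro w hw he
    have := (Finset.mem_sdiff.1 hk).2
    exact this (Finset.mem_image.2 ⟨w, hN w hw, he⟩)
  refine hG6 (Colorable.of_fun (fun x => if x = v then k else c x) ?_)
  intro a b hab h
  by_cases ha : a = v
  · have hb : b ≠ v := fun hb => (ne_of_lt hab) (ha.trans hb.symm)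
    simp only [ha, hb, if_true, if_false]
    exact (hk' b (ha ▸ h)).symm
  · by_cases hb : b = v
    · simp only [ha, hb, if_true, if_false]
      exact hk' a (hb ▸ h.symm)
    · simp only [ha, hb, if_false]
      exact hc a b h ha hb

/-- the pair reduction -/
theorem pair {n : ℕ} (hmin : Min n) {G : SimpleGraph (Fin n)} (hG : TwoQ G)
    (hG6 : ¬ G.Colorable 6) (x y z w : Fin n) (hxy : x.val + 1 = y.val) (hyz : y.val + 1 = z.val)
    (hzw : z.val + 1 = w.val) (hxw : ¬ G.Adj x w) (M N : Finset (Fin n))
    (hM : ∀ u, G.Adj y u → u ≠ x → u ≠ z → u ≠ w → u ∈ M)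
    (hN : ∀ u, G.Adj z u → u ≠ x → u ≠ y → u ≠ w → u ∈ N) :
    5 ≤ M.card ∨ 5 ≤ N.card ∨ 8 ≤ M.card + N.card := by
  classical
  by_contra hlt
  push Not at hlt
  obtain ⟨hlt1, hlt2, hlt3⟩ := hlt
  have hw := w.isLt
  obtain ⟨c, hc, he⟩ := red hmin hG (fun u => u = y ∨ u = z) {x.val, y.val, z.val}
    (by simp) (by
      intro t ht
      simp only [Finset.mem_insert, Finset.mem_singleton] at ht
      omega) (by
      intro a b hab hadj ha hb hall
      have h1 := hall a.val le_rfl hab
      have h2 := hall (b.val - 1) (by rw [Fin.lt_def] at hab; omega)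
        (by rw [Fin.lt_def] at hab; omega)
      simp only [Finset.mem_insert, Finset.mem_singleton] at h1 h2
      rw [Fin.lt_def] at hab
      have ha1 : a.val ≠ y.val := fun h => ha (Or.inl (Fin.ext h))
      have ha2 : a.val ≠ z.val := fun h => ha (Or.inr (Fin.ext h))
      have hb1 : b.val ≠ y.val := fun h => hb (Or.inl (Fin.ext h))
      have hb2 : b.val ≠ z.val := fun h => hb (Or.inr (Fin.ext h))
      have h3 : a = x := Fin.ext (by omega)
      have h4 : b = w := Fin.ext (by omega)
      exact hxw (h3 ▸ h4 ▸ hadj))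
  have hcxw : c x = c w := he x w (by rw [Fin.le_def]; omega) (by
    intro t h1 h2
    simp only [Finset.mem_insert, Finset.mem_singleton]
    omega)
  -- the free colours
  have h1 := free c (insert x M)
  have h2 := free c (insert x N)
  have h3 : ((insert x M).image c).card ≤ M.card + 1 :=
    Finset.card_image_le.trans (Finset.card_insert_le _ _)
  have h4 : ((insert x N).image c).card ≤ N.card + 1 :=
    Finset.card_image_le.trans (Finset.card_insert_le _ _)
  set A := Finset.univ \ (insert x M).image c with hA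
  set B := Finset.univ \ (insert x N).image c with hB
  have hA1 : 1 ≤ A.card := by omega
  have hB1 : 1 ≤ B.card := by omega
  obtain ⟨k, l, hk, hl, hkl⟩ : ∃ k l, k ∈ A ∧ l ∈ B ∧ k ≠ l := by
    by_cases hA2 : 2 ≤ A.card
    · obtain ⟨l, hl⟩ := Finset.card_pos.1 (show 0 < B.card by omega)
      obtain ⟨k, hk, hkl⟩ := Finset.exists_mem_ne (show 1 < A.card by omega) l
      exact ⟨k, l, hk, hl, hkl⟩
    · obtain ⟨k, hk⟩ := Finset.card_pos.1 (show 0 < A.card by omega)
      obtain ⟨l, hl, hkl⟩ := Finset.exists_mem_ne (show 1 < B.card by omega) k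
      exact ⟨k, l, hk, hl, hkl.symm⟩
  have hk' : ∀ u, G.Adj y u → u ≠ z → c u ≠ k := by
    intro u hu huz he'
    refine (Finset.mem_sdiff.1 hk).2 (Finset.mem_image.2 ?_)
    by_cases hux : u = x
    · exact ⟨x, Finset.mem_insert_self _ _, hux ▸ he'⟩
    · by_cases huw : u = w
      · exact ⟨x, Finset.mem_insert_self _ _, by rw [hcxw, ← huw]; exact he'⟩
      · exact ⟨u, Finset.mem_insert_of_mem (hM u hu hux huz huw), he'⟩
  have hl' : ∀ u, G.Adj z u → u ≠ y → c u ≠ l := by
    intro u hu huz he'
    refine (Finset.mem_sdiff.1 hl).2 (Finset.mem_image.2 ?_)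
    by_cases hux : u = x
    · exact ⟨x, Finset.mem_insert_self _ _, hux ▸ he'⟩
    · by_cases huw : u = w
      · exact ⟨x, Finset.mem_insert_self _ _, by rw [hcxw, ← huw]; exact he'⟩
      · exact ⟨u, Finset.mem_insert_of_mem (hN u hu hux huz huw), he'⟩
  have hyz' : y ≠ z := fun h => by rw [h] at hyz; omega
  refine hG6 (Colorable.of_fun (fun u => if u = y then k else if u = z then l else c u) ?_)
  intro a b hab h
  by_cases hay : a = y
  · subst hay
    have hb : b ≠ a := (ne_of_lt hab).symm
    by_cases hbz : b = z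
    · subst hbz
      simp only [if_true, hb, if_false]
      exact hkl
    · simp only [if_true, hb, hbz, if_false]
      exact (hk' b h hbz).symm
  · by_cases haz : a = z
    · subst haz
      have hb : b ≠ a := (ne_of_lt hab).symm
      by_cases hby : b = y
      · subst hby
        rw [Fin.lt_def] at hab
        omega
      · simp only [if_true, hay, hby, hb, if_false]
        exact (hl' b h hby).symm
    · simp only [hay, haz, if_false]
      by_cases hby : b = y
      · subst hby
        simp only [if_true]
        exact hk' a h.symm haz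
      · by_cases hbz : b = z
        · subst hbz
          simp only [hby, if_true, if_false]
          exact hl' a h.symm hay
        · simp only [hby, hbz, if_false]
          exact hc a b h (by simp [hay, haz]) (by simp [hby, hbz])

/-- there is no clique separator in a minimal counterexample: no window `[v, w]` which is a
clique and separates -/
theorem no_clique {n : ℕ} (hmin : Min n) {G : SimpleGraph (Fin n)} (hG : TwoQ G)
    (hG6 : ¬ G.Colorable 6) (v w : Fin n) (hv : 0 < v.val) (hw : w.val + 1 < n) (hvw : v ≤ w)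
    (hcl : ∀ a b, v ≤ a → a < b → b ≤ w → G.Adj a b)
    (hsep : ∀ a b, a < v → w < b → ¬ G.Adj a b) : False := by
  classical
  obtain ⟨c, hc, -⟩ := red hmin hG (fun u => w < u) {w.val}
    (Finset.singleton_nonempty _) (by
      intro t ht
      rw [Finset.mem_singleton] at ht
      omega) (by
      intro a b hab _ ha hb hall
      have h1 := hall a.val le_rfl hab
      rw [Finset.mem_singleton] at h1
      exact hb (Fin.lt_def.2 (by rw [Fin.lt_def] at hab; omega)))
  obtain ⟨d, hd, -⟩ := red hmin hG (fun u => u < v) {v.val - 1}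
    (Finset.singleton_nonempty _) (by
      intro t ht
      rw [Finset.mem_singleton] at ht
      have := v.isLt
      omega) (by
      intro a b hab _ ha hb hall
      have h1 := hall a.val le_rfl hab
      rw [Finset.mem_singleton] at h1
      exact ha (Fin.lt_def.2 (by omega)))
  have hci : Function.Injective (fun x : {x : Fin n // v ≤ x ∧ x ≤ w} => c x.1) := by
    intro x y h
    by_contra hne
    rcases lt_trichotomy x.1 y.1 with h1 | h1 | h1
    · exact hc x.1 y.1 (hcl _ _ x.2.1 h1 y.2.2) (not_lt.2 x.2.2) (not_lt.2 y.2.2) h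
    · exact hne (Subtype.ext h1)
    · exact hc y.1 x.1 (hcl _ _ y.2.1 h1 x.2.2) (not_lt.2 y.2.2) (not_lt.2 x.2.2) h.symm
  have hdi : Function.Injective (fun x : {x : Fin n // v ≤ x ∧ x ≤ w} => d x.1) := by
    intro x y h
    by_contra hne
    rcases lt_trichotomy x.1 y.1 with h1 | h1 | h1
    · exact hd x.1 y.1 (hcl _ _ x.2.1 h1 y.2.2) (not_lt.2 x.2.1) (not_lt.2 y.2.1) h
    · exact hne (Subtype.ext h1)
    · exact hd y.1 x.1 (hcl _ _ y.2.1 h1 x.2.2) (not_lt.2 y.2.1) (not_lt.2 x.2.1) h.symm
  let e : {k : Fin 6 // k ∈ Set.range (fun x : {x : Fin n // v ≤ x ∧ x ≤ w} => c x.1)} ≃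
      {k : Fin 6 // k ∈ Set.range (fun x : {x : Fin n // v ≤ x ∧ x ≤ w} => d x.1)} :=
    (Equiv.ofInjective _ hci).symm.trans (Equiv.ofInjective _ hdi)
  have he : ∀ x, v ≤ x → x ≤ w → e.extendSubtype (c x) = d x := by
    intro x h1 h2
    have hm : c x ∈ Set.range (fun x : {x : Fin n // v ≤ x ∧ x ≤ w} => c x.1) :=
      ⟨⟨x, h1, h2⟩, rfl⟩
    rw [e.extendSubtype_apply_of_mem _ hm]
    have : (Equiv.ofInjective _ hci).symm ⟨c x, hm⟩ = ⟨x, h1, h2⟩ := by
      rw [Equiv.symm_apply_eq]
      rfl
    simp only [e, Equiv.trans_apply, this]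
    rfl
  refine hG6 (Colorable.of_fun (fun x => if x ≤ w then e.extendSubtype (c x) else d x) ?_)
  intro a b hab h
  by_cases hb : b ≤ w
  · have ha : a ≤ w := (le_of_lt hab).trans hb
    simp only [ha, hb, if_true]
    exact fun h' => hc a b h (not_lt.2 ha) (not_lt.2 hb) (e.extendSubtype.injective h')
  · by_cases ha : v ≤ a
    · have h2 : (if a ≤ w then e.extendSubtype (c a) else d a) = d a := by
        split_ifs with h3
        · exact he a ha h3
        · rfl
      rw [h2]
      simp only [hb, if_false]
      exact hd a b h (not_lt.2 ha) (not_lt.2 (ha.trans (le_of_lt hab)))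
    · exact absurd h (hsep a b (not_le.1 ha) (not_le.1 hb))

end Pool.Agent.helper78.TQ6
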