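import Pool.Agent.helper78.TQ6.Basic

set_option autoImplicit false

/-!
# Two-queue graphs: deletions and collapses in a minimal counterexample
-/

namespace Pool.Agent.helper78.TQ6

/-- the collapse of the steps `t → t + 1`, `t ∈ T` -/
def cl (T : Finset ℕ) (x : ℕ) : ℕ := x - (T.filter (· < x)).card

theorem card_lt_le (T : Finset ℕ) (x : ℕ) : (T.filter (· < x)).card ≤ x := by
  calc (T.filter (· < x)).card ≤ (Finset.range x).card :=
        Finset.card_le_card (fun t ht => by simpa using (Finset.mem_filter.1 ht).2)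
    _ = x := Finset.card_range x

theorem card_split (T : Finset ℕ) {x y : ℕ} (h : x ≤ y) :
    (T.filter (· < y)).card = (T.filter (· < x)).card + (T.filter (fun t => x ≤ t ∧ t < y)).card := by
  rw [← Finset.card_union_of_disjoint]
  · congr 1
    ext t
    simp only [Finset.mem_filter, Finset.mem_union]
    constructor
    · rintro ⟨h1, h2⟩
      by_cases h3 : t < x
      · exact Or.inl ⟨h1, h3⟩
      · exact Or.inr ⟨h1, by omega, h2⟩
    · rintro (⟨h1, h2⟩ | ⟨h1, h2, h3⟩)
      · exact ⟨h1, by omega⟩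
      · exact ⟨h1, h3⟩
  · rw [Finset.disjoint_left]
    intro t h1 h2
    simp only [Finset.mem_filter] at h1 h2
    omega

theorem card_mid_le (T : Finset ℕ) (x y : ℕ) :
    (T.filter (fun t => x ≤ t ∧ t < y)).card ≤ y - x := by
  calc (T.filter (fun t => x ≤ t ∧ t < y)).card ≤ (Finset.Ico x y).card :=
        Finset.card_le_card (fun t ht => by simpa using (Finset.mem_filter.1 ht).2)
    _ = y - x := Nat.card_Ico x y

theorem cl_mono (T : Finset ℕ) : Monotone (cl T) := by
  intro x y h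
  have h1 := card_split T h
  have h2 := card_mid_le T x y
  have h3 := card_lt_le T x
  have h4 := card_lt_le T y
  unfold cl
  omega

theorem cl_eq (T : Finset ℕ) {x y : ℕ} (h : x ≤ y) (he : cl T x = cl T y) :
    ∀ t, x ≤ t → t < y → t ∈ T := by
  have h1 := card_split T h
  have h3 := card_lt_le T x
  have h4 := card_lt_le T y
  unfold cl at he
  have h5 : (T.filter (fun t => x ≤ t ∧ t < y)).card = (Finset.Ico x y).card := by
    rw [Nat.card_Ico]
    have := card_mid_le T x y
    omega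
  have h6 : T.filter (fun t => x ≤ t ∧ t < y) = Finset.Ico x y :=
    Finset.eq_of_subset_of_card_le
      (fun t ht => by simpa using (Finset.mem_filter.1 ht).2) h5.ge
  intro t ht1 ht2
  have : t ∈ T.filter (fun t => x ≤ t ∧ t < y) := by
    rw [h6]
    simp [ht1, ht2]
  exact (Finset.mem_filter.1 this).1

theorem cl_eq_of (T : Finset ℕ) {x y : ℕ} (h : x ≤ y) (hT : ∀ t, x ≤ t → t < y → t ∈ T) :
    cl T x = cl T y := by
  have h1 := card_split T h
  have h3 := card_lt_le T x
  have h6 : T.filter (fun t => x ≤ t ∧ t < y) = Finset.Ico x y := by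
    ext t
    simp only [Finset.mem_filter, Finset.mem_Ico]
    exact ⟨fun h => h.2, fun h => ⟨hT t h.1 h.2, h⟩⟩
  rw [h6, Nat.card_Ico] at h1
  unfold cl
  omega

theorem cl_lt (T : Finset ℕ) {n x : ℕ} (hx : x < n) (hT : ∀ t ∈ T, t + 1 < n) :
    cl T x < n - T.card := by
  have h0 : T.filter (· < n - 1) = T := Finset.filter_true_of_mem fun t ht => by
    have := hT t ht
    omega
  have h1 := card_split T (show x ≤ n - 1 by omega)
  rw [h0] at h1
  have h2 := card_mid_le T x (n - 1)
  have h3 := card_lt_le T x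
  have h4 := card_lt_le T (n - 1)
  rw [h0] at h4
  unfold cl
  omega

/-- every two-queue graph with fewer vertices is six-colourable -/
def Min (n : ℕ) : Prop := ∀ m < n, ∀ H : SimpleGraph (Fin m), TwoQ H → H.Colorable 6

/-- reduction: delete the vertices of `S`, collapse the steps of `T` -/
theorem red {n : ℕ} (hmin : Min n) {G : SimpleGraph (Fin n)} (hG : TwoQ G) (S : Fin n → Prop)
    (T : Finset ℕ) (hT0 : T.Nonempty) (hT : ∀ t ∈ T, t + 1 < n)
    (hne : ∀ a b : Fin n, a < b → G.Adj a b → ¬ S a → ¬ S b →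
      ¬ ∀ t, a.val ≤ t → t < b.val → t ∈ T) :
    ∃ c : Fin n → Fin 6, (∀ a b, G.Adj a b → ¬ S a → ¬ S b → c a ≠ c b) ∧
      ∀ a b : Fin n, a ≤ b → (∀ t, a.val ≤ t → t < b.val → t ∈ T) → c a = c b := by
  classical
  have hcard : 0 < T.card := Finset.card_pos.2 hT0
  obtain ⟨t0, ht0⟩ := hT0
  have hn : t0 + 1 < n := hT t0 ht0
  let f : Fin n → Fin (n - T.card) := fun x => ⟨cl T x.val, cl_lt T x.isLt hT⟩
  have hf : Monotone f := fun x y h => cl_mono T h
  let H : SimpleGraph (Fin n) :=
    { Adj := fun a b => G.Adj a b ∧ ¬ S a ∧ ¬ S b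
      symm := ⟨fun a b h => ⟨h.1.symm, h.2.2, h.2.1⟩⟩
      loopless := ⟨fun a h => G.irrefl h.1⟩ }
  have hH : TwoQ H := hG.mono (fun a b h => h.1)
  have hne' : ∀ a b, H.Adj a b → f a ≠ f b := by
    intro a b h he
    rcases lt_trichotomy a b with h1 | h1 | h1
    · exact hne a b h1 h.1 h.2.1 h.2.2 (cl_eq T (le_of_lt h1) (Fin.mk.inj_iff.1 he))
    · exact G.irrefl (h1 ▸ h.1)
    · exact hne b a h1 h.1.symm h.2.2 h.2.1 (cl_eq T (le_of_lt h1) (Fin.mk.inj_iff.1 he).symm)
  obtain ⟨c, hc⟩ := exists_col (hmin _ (by omega) _ (hH.img hf)) hne'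
  refine ⟨fun x => c (f x), fun a b h1 h2 h3 => hc a b ⟨h1, h2, h3⟩, fun a b h1 h2 => ?_⟩
  have : f a = f b := by
    ext
    exact cl_eq_of T h1 h2
  simp only [this]

end Pool.Agent.helper78.TQ6
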