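import Pool.Agent.helper78.TQ6.Ext

set_option autoImplicit false

/-!
# Two-queue graphs: reduction of six-colourability to irreducible word graphs
-/

namespace Pool.Agent.helper78.TQ6

/-- edges of the word graph: `p x` is the first right neighbour of `x` at distance more than two,
`p (x + 1)` the last one -/
def Ew (p : ℕ → ℕ) (x y : ℕ) : Prop := x < y ∧ (y ≤ x + 2 ∨ (p x ≤ y ∧ y ≤ p (x + 1)))

/-- the word graph of `p` on the vertices `0, …, n - 1` -/
def WG (n : ℕ) (p : ℕ → ℕ) : SimpleGraph (Fin n) where
  Adj x y := Ew p x y ∨ Ew p y x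
  symm := ⟨fun _ _ h => h.symm⟩
  loopless := ⟨fun x h => by
    rcases h with h | h <;> exact absurd h.1 (lt_irrefl _)⟩

theorem WG.adj_lt {n : ℕ} {p : ℕ → ℕ} {x y : Fin n} (h : (WG n p).Adj x y) (hxy : x < y) :
    Ew p x y := by
  rcases h with h | h
  · exact h
  · exact absurd h.1 (not_lt.2 (le_of_lt hxy))

theorem WG.twoQ {n : ℕ} {p : ℕ → ℕ} (hp : Monotone p) : TwoQ (WG n p) := by
  classical
  refine ⟨fun x y => if y.val ≤ x.val + 2 then 0 else 1, ?_⟩
  intro a b c d hab hbc hcd had hbc'
  have h1 := WG.adj_lt had (hab.trans (hbc.trans hcd))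
  have h2 := WG.adj_lt hbc' hbc
  rw [Fin.lt_def] at hab hbc hcd
  have h3 : ¬ d.val ≤ a.val + 2 := by omega
  simp only [h3, if_false]
  by_cases h4 : c.val ≤ b.val + 2
  · simp [h4]
  · exfalso
    rcases h1.2 with h | h
    · omega
    · rcases h2.2 with h' | h'
      · omega
      · have : p (a.val + 1) ≤ p b.val := hp (by omega)
        omega

/-- the number of neighbours of `x` at distance more than two -/
def LD (n : ℕ) (p : ℕ → ℕ) (x : ℕ) : ℕ :=
  ((Finset.range n).filter (fun u => u + 3 ≤ x ∧ p u ≤ x ∧ x ≤ p (u + 1))).card +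
    ((Finset.range n).filter (fun y => x + 3 ≤ y ∧ p x ≤ y ∧ y ≤ p (x + 1))).card

/-- the number of vertices at distance one or two -/
def SD (n : ℕ) (x : ℕ) : ℕ :=
  ((Finset.range n).filter (fun u => u ≠ x ∧ u ≤ x + 2 ∧ x ≤ u + 2)).card

/-- irreducible word graphs -/
structure Nice (n : ℕ) (p : ℕ → ℕ) : Prop where
  big : 7 ≤ n
  mono : Monotone p
  low : ∀ x, x + 1 ≤ p x
  win : ∀ x, 1 ≤ x → x + 4 < n → x + 4 ≤ p x
  deg : ∀ x, x < n → 6 ≤ SD n x + LD n p x
  pair : ∀ x, 2 ≤ x → x + 3 < n → 4 ≤ LD n p x ∨ 4 ≤ LD n p (x + 1) ∨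
    6 ≤ LD n p x + LD n p (x + 1)

/-- the long neighbours as a set of vertices -/
noncomputable def longN (n : ℕ) (p : ℕ → ℕ) (x : Fin n) : Finset (Fin n) := by
  classical
  exact Finset.univ.filter (fun u => (u.val + 3 ≤ x.val ∧ p u ≤ x.val ∧ x.val ≤ p (u.val + 1)) ∨
    (x.val + 3 ≤ u.val ∧ p x ≤ u.val ∧ u.val ≤ p (x.val + 1)))

theorem longN_card {n : ℕ} {p : ℕ → ℕ} (x : Fin n) : (longN n p x).card ≤ LD n p x := by
  classical
  unfold LD
  rw [← Finset.card_union_of_disjoint]
  · rw [← Finset.card_map Fin.valEmbedding]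
    refine Finset.card_le_card ?_
    intro t ht
    rw [Finset.mem_map] at ht
    obtain ⟨u, hu, rfl⟩ := ht
    simp only [longN, Finset.mem_filter, Finset.mem_univ, true_and] at hu
    simp only [Finset.mem_union, Finset.mem_filter, Finset.mem_range, Fin.valEmbedding_apply]
    rcases hu with hu | hu
    · exact Or.inl ⟨u.isLt, hu⟩
    · exact Or.inr ⟨u.isLt, hu⟩
  · rw [Finset.disjoint_left]
    intro t h1 h2
    simp only [Finset.mem_filter] at h1 h2
    omega

theorem adj_long {n : ℕ} {p : ℕ → ℕ} {x u : Fin n} (h : (WG n p).Adj x u) :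
    (u ≠ x ∧ u.val ≤ x.val + 2 ∧ x.val ≤ u.val + 2) ∨ u ∈ longN n p x := by
  classical
  simp only [longN, Finset.mem_filter, Finset.mem_univ, true_and]
  rcases h with h | h
  · obtain ⟨h1, h2⟩ := h
    have hne : u ≠ x := fun he => by rw [he] at h1; exact lt_irrefl _ h1
    by_cases h3 : u.val ≤ x.val + 2
    · exact Or.inl ⟨hne, h3, by omega⟩
    · rcases h2 with h2 | h2
      · omega
      · exact Or.inr (Or.inr ⟨by omega, h2⟩)
  · obtain ⟨h1, h2⟩ := h
    have hne : u ≠ x := fun he => by rw [he] at h1; exact lt_irrefl _ h1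
    by_cases h3 : x.val ≤ u.val + 2
    · exact Or.inl ⟨hne, by omega, h3⟩
    · rcases h2 with h2 | h2
      · omega
      · exact Or.inr (Or.inl ⟨by omega, h2⟩)

theorem nice {n : ℕ} {p : ℕ → ℕ} (hmin : Min n) (hp : Monotone p) (hl : ∀ x, x + 1 ≤ p x)
    (h6 : ¬ (WG n p).Colorable 6) : Nice n p := by
  classical
  have hQ : TwoQ (WG n p) := WG.twoQ hp
  have hn : 7 ≤ n := by
    by_contra h
    exact h6 (colorable_small (by omega) _)
  have hwin : ∀ x, 1 ≤ x → x + 4 < n → x + 4 ≤ p x := by
    intro x hx hxn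
    by_contra hlt
    have hlx := hl x
    refine no_clique hmin hQ h6 ⟨x, by omega⟩ ⟨p x, by omega⟩ (by simp; omega) (by simp; omega)
      (by rw [Fin.le_def]; simp; omega) ?_ ?_
    · intro a b ha hab hb
      rw [Fin.le_def] at ha hb
      rw [Fin.lt_def] at hab
      simp only at ha hb
      refine Or.inl ⟨hab, ?_⟩
      by_cases h3 : b.val ≤ a.val + 2
      · exact Or.inl h3
      · right
        have h4 : a.val = x := by omega
        have h5 : b.val = p x := by omega
        rw [h4, h5]
        exact ⟨le_rfl, hp (by omega)⟩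
    · intro a b ha hb h
      rw [Fin.lt_def] at ha hb
      simp only at ha hb
      have h1 := WG.adj_lt h (by rw [Fin.lt_def]; omega)
      have h2 : p (a.val + 1) ≤ p x := hp (by omega)
      rcases h1.2 with h3 | h3
      · omega
      · omega
  refine ⟨hn, hp, hl, hwin, ?_, ?_⟩
  · intro x hx
    have h1 := deg_ge hmin hQ h6 ⟨x, hx⟩
      (Finset.univ.filter (fun u : Fin n => u.val ≠ x ∧ u.val ≤ x + 2 ∧ x ≤ u.val + 2) ∪
        longN n p ⟨x, hx⟩) (by
      intro u hu
      rw [Finset.mem_union]
      rcases adj_long hu with h | h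
      · left
        simp only [Finset.mem_filter, Finset.mem_univ, true_and]
        exact ⟨fun he => h.1 (Fin.ext he), h.2⟩
      · exact Or.inr h)
    have h2 := Finset.card_union_le
      (Finset.univ.filter (fun u : Fin n => u.val ≠ x ∧ u.val ≤ x + 2 ∧ x ≤ u.val + 2))
      (longN n p ⟨x, hx⟩)
    have h3 : (Finset.univ.filter
        (fun u : Fin n => u.val ≠ x ∧ u.val ≤ x + 2 ∧ x ≤ u.val + 2)).card ≤ SD n x := by
      unfold SD
      rw [← Finset.card_map Fin.valEmbedding]
      refine Finset.card_le_card ?_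
      intro t ht
      rw [Finset.mem_map] at ht
      obtain ⟨u, hu, rfl⟩ := ht
      simp only [Finset.mem_filter, Finset.mem_univ, true_and] at hu
      simp only [Finset.mem_filter, Finset.mem_range, Fin.valEmbedding_apply]
      exact ⟨u.isLt, hu⟩
    have h4 := longN_card (p := p) (⟨x, hx⟩ : Fin n)
    simp only at h4
    omega
  · intro x hx hxn
    have hw1 := hwin (x - 1) (by omega) (by omega)
    have h1 := pair hmin hQ h6 ⟨x - 1, by omega⟩ ⟨x, by omega⟩ ⟨x + 1, by omega⟩
      ⟨x + 2, by omega⟩ (by simp only; omega) rfl rfl (by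
        intro h
        have h2 := (WG.adj_lt h (by rw [Fin.lt_def]; simp only; omega)).2
        simp only at h2
        omega) (insert ⟨x - 2, by omega⟩ (longN n p ⟨x, by omega⟩))
      (insert ⟨x + 3, by omega⟩ (longN n p ⟨x + 1, by omega⟩)) (by
        intro u hu h1 h2 h3
        rw [Finset.mem_insert]
        rcases adj_long hu with h | h
        · left
          rw [Fin.ext_iff] at *
          have h4 : u.val ≠ x - 1 := fun he => h1 (Fin.ext he)
          have h5 : u.val ≠ x + 1 := fun he => h2 (Fin.ext he)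
          have h6 : u.val ≠ x + 2 := fun he => h3 (Fin.ext he)
          have h7 : u.val ≠ x := fun he => h.1 (Fin.ext he)
          have h8 := h.2
          simp only at h8 ⊢
          omega
        · exact Or.inr h) (by
        intro u hu h1 h2 h3
        rw [Finset.mem_insert]
        rcases adj_long hu with h | h
        · left
          rw [Fin.ext_iff] at *
          have h4 : u.val ≠ x - 1 := fun he => h1 (Fin.ext he)
          have h5 : u.val ≠ x := fun he => h2 (Fin.ext he)
          have h6 : u.val ≠ x + 2 := fun he => h3 (Fin.ext he)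
          have h7 : u.val ≠ x + 1 := fun he => h.1 (Fin.ext he)
          have h8 := h.2
          simp only at h8 ⊢
          omega
        · exact Or.inr h)
    have h2 := Finset.card_insert_le (⟨x - 2, by omega⟩ : Fin n) (longN n p ⟨x, by omega⟩)
    have h3 := Finset.card_insert_le (⟨x + 3, by omega⟩ : Fin n) (longN n p ⟨x + 1, by omega⟩)
    have h4 := longN_card (p := p) (⟨x, by omega⟩ : Fin n)
    have h5 := longN_card (p := p) (⟨x + 1, by omega⟩ : Fin n)
    simp only at h4 h5
    omega

/-- the last right end of an edge of length at least three from a vertex `< x` -/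
noncomputable def pp {n : ℕ} (A : Fin n → Fin n → Prop) (x : ℕ) : ℕ := by
  classical
  exact ((Finset.univ : Finset (Fin n × Fin n)).filter
    (fun e => e.1.val < x ∧ e.1.val + 3 ≤ e.2.val ∧ A e.1 e.2)).sup (fun e => e.2.val) ⊔ (x + 1)

theorem pp_mono {n : ℕ} (A : Fin n → Fin n → Prop) : Monotone (pp A) := by
  classical
  intro v w h
  unfold pp
  refine sup_le_sup (Finset.sup_mono ?_) (by omega)
  intro e he
  simp only [Finset.mem_filter, Finset.mem_univ, true_and] at he ⊢
  exact ⟨he.1.trans_le h, he.2⟩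

theorem le_pp {n : ℕ} (A : Fin n → Fin n → Prop) (x : ℕ) : x + 1 ≤ pp A x := by
  unfold pp
  exact le_sup_right

theorem le_WG {n : ℕ} (G : SimpleGraph (Fin n)) (hG : TwoQ G)
    (hc : ∀ u v : Fin n, u.val + 1 = v.val → G.Adj u v) : G ≤ WG n (pp (fun x y => G.Adj x y)) := by
  classical
  obtain ⟨q, hq⟩ := hG
  have hL : ∀ a b c d : Fin n, a < b → b.val + 3 ≤ c.val → c < d → G.Adj a d → ¬ G.Adj b c := by
    intro a b c d hab hbc hcd had hbc'
    have hc' : c.val < n := c.isLt
    have h1 := hc ⟨b.val + 1, by omega⟩ ⟨b.val + 2, by omega⟩ rfl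
    have h2 := hq a b c d hab (by rw [Fin.lt_def]; omega) hcd had hbc'
    have h3 := hq a ⟨b.val + 1, by omega⟩ ⟨b.val + 2, by omega⟩ d
      (by rw [Fin.lt_def] at hab ⊢; simp only; omega) (by rw [Fin.lt_def]; simp)
      (by rw [Fin.lt_def] at hcd ⊢; simp only; omega) had h1
    have h4 := hq b ⟨b.val + 1, by omega⟩ ⟨b.val + 2, by omega⟩ c
      (by rw [Fin.lt_def]; simp) (by rw [Fin.lt_def]; simp)
      (by rw [Fin.lt_def]; simp only; omega) hbc' h1
    generalize q a d = x at *
    generalize q b c = y at *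
    generalize q _ _ = z at *
    omega
  have key : ∀ x y : Fin n, x < y → G.Adj x y → Ew (pp (fun x y => G.Adj x y)) x y := by
    intro x y hxy h
    refine ⟨hxy, ?_⟩
    by_cases h3 : y.val ≤ x.val + 2
    · exact Or.inl h3
    · right
      unfold pp
      constructor
      · refine sup_le (Finset.sup_le ?_) (by omega)
        intro e he
        simp only [Finset.mem_filter, Finset.mem_univ, true_and] at he
        by_contra h4
        exact hL e.1 x y e.2 he.1 (by omega) (not_le.1 h4) he.2.2 h
      · refine le_sup_of_le_left ?_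
        refine Finset.le_sup (f := fun e : Fin n × Fin n => e.2.val) (b := (x, y)) ?_
        simp only [Finset.mem_filter, Finset.mem_univ, true_and]
        exact ⟨by omega, by omega, h⟩
  intro x y h
  rcases lt_trichotomy x y with hxy | hxy | hxy
  · exact Or.inl (key x y hxy h)
  · exact absurd (hxy ▸ h) (G.irrefl)
  · exact Or.inr (key y x hxy h.symm)

/-- six-colourability of all two-queue graphs follows from that of the irreducible word graphs -/
theorem reduction (H : ∀ n p, Nice n p → (WG n p).Colorable 6) :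
    ∀ (n : ℕ) (G : SimpleGraph (Fin n)), TwoQ G → G.Colorable 6 := by
  classical
  intro n
  induction n using Nat.strong_induction_on with
  | _ n ih =>
    intro G hG
    by_contra h6
    have hmin : Min n := fun m hm K hK => ih m hm K hK
    have hc : ∀ u v : Fin n, u.val + 1 = v.val → G.Adj u v := by
      intro u v huv
      by_contra hnot
      have hv := v.isLt
      obtain ⟨c, hc, -⟩ := red hmin hG (fun _ => False) {u.val} (Finset.singleton_nonempty _) (by
        intro t ht
        rw [Finset.mem_singleton] at ht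
        omega) (by
        intro a b hab hadj _ _ hall
        have h1 := hall a.val le_rfl hab
        have h2 := hall (b.val - 1) (by rw [Fin.lt_def] at hab; omega)
          (by rw [Fin.lt_def] at hab; omega)
        rw [Finset.mem_singleton] at h1 h2
        rw [Fin.lt_def] at hab
        have h3 : a = u := Fin.ext h1
        have h4 : b = v := Fin.ext (by omega)
        exact hnot (h3 ▸ h4 ▸ hadj))
      exact h6 (Colorable.of_fun c fun a b _ h => hc a b h not_false not_false)
    have hle := le_WG G hG hc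
    have hW6 : ¬ (WG n (pp (fun x y => G.Adj x y))).Colorable 6 := fun h => h6 (h.mono_left hle)
    exact hW6 (H n _ (nice hmin (pp_mono _) (le_pp _) hW6))

end Pool.Agent.helper78.TQ6
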