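import Pool.Agent.helper78.TQ6.Word
import Pool.Agent.helper97.TQ6.Tow
import Pool.Agent.helper97.TQ6.XGood
import Pool.Agent.helper85.TQ6.Glue

/-!
# Every two-queue graph is six-colourable

`wg6`: the word graph of a monotone `p` is a subgraph of the word graph of `max (p x) (x + 3)`, which
is six-coloured by the tower (`tow`, `xx_c2`, `xx_lo`, `xx_good`) and the gluing (`glue`).
`six`: the reduction to word graphs.
-/

set_option autoImplicit false

namespace Pool.Agent.helper97.TQ6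

open Pool.Agent.helper78.TQ6

/-- the windows are made long -/
def pm (p : ℕ → ℕ) (x : ℕ) : ℕ := max (p x) (x + 3)

theorem pm_mono {p : ℕ → ℕ} (hp : Monotone p) : Monotone (pm p) := fun x y h =>
  max_le_max (hp h) (by omega)

theorem le_pm (p : ℕ → ℕ) (x : ℕ) : x + 3 ≤ pm p x := le_max_right _ _

theorem Ew_pm {p : ℕ → ℕ} {x y : ℕ} (h : Ew p x y) : Ew (pm p) x y := by
  obtain ⟨h1, h2⟩ := h
  refine ⟨h1, ?_⟩
  by_cases h3 : y ≤ x + 2
  · exact Or.inl h3
  · rcases h2 with h2 | ⟨h4, h5⟩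
    · exact absurd h2 h3
    · exact Or.inr ⟨max_le h4 (by omega), h5.trans (le_max_left _ _)⟩

theorem le_sg {p : ℕ → ℕ} (hp : Monotone p) (hw : ∀ x, x + 3 ≤ p x) (j : ℕ) : j ≤ sg p j := by
  induction j with
  | zero => exact Nat.zero_le _
  | succ j ih =>
    have := sg_step hp hw j
    omega

/-- (G) -/
theorem wg6 {p : ℕ → ℕ} (hp : Monotone p) (n : ℕ) : (WG n p).Colorable 6 := by
  have hp' := pm_mono hp
  have hw := le_pm p
  obtain ⟨S, fl, fu, T⟩ := tow hp' hw n
  obtain ⟨C, hC⟩ := glue hp' (sg (pm p)) rfl (sg_step hp' hw) (sg_p hp' hw) n (XX (pm p) S fu)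
    (fun j hj v hv => xx_lo hp' hw T hj hv)
    (fun j hj v hv u h1 h2 => xx_c2 hp' hw T hj hv h1 h2)
    (fun j hj => xx_good hp' hw T hj)
  refine Colorable.of_fun (fun x => C x.val) fun a b hab hadj => ?_
  exact hC a.val b.val (b.isLt.trans_le (le_sg hp' hw n)) (Ew_pm (WG.adj_lt hadj hab))

/-- **every two-queue graph is six-colourable** -/
theorem six (n : ℕ) (G : SimpleGraph (Fin n)) (hG : TwoQ G) : G.Colorable 6 :=
  reduction (fun n _ hp => wg6 hp.mono n) n G hG

end Pool.Agent.helper97.TQ6
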